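import Mathlib

/-!
# Infinite divisibility of the log total mass (MP_6ad96e_pr): definitions and pieces
-/

set_option autoImplicit false

open MeasureTheory ProbabilityTheory Filter Topology Set
open scoped ENNReal BoundedContinuousFunction

namespace Pool.Agent.L5helper98.ID

noncomputable section

/-- `log⁺ (1/|x|)` -/
def lp (x : ℝ) : ℝ := max (Real.log (1 / |x|)) 0

/-- positive definite functions on the line (tested against continuous functions of compact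
support, so that the value at `0` does not matter) -/
def PosDef (g : ℝ → ℝ) : Prop := (∀ x, g (-x) = g x) ∧
  ∀ f : ℝ → ℝ, Continuous f → HasCompactSupport f → 0 ≤ ∫ x, ∫ y, g (x - y) * f x * f y

/-- admissible `g`: positive definite, `log⁺ (1/|x|)` plus a bounded continuous function -/
def AdmG (g : ℝ → ℝ) : Prop := PosDef g ∧
  ∃ h : ℝ → ℝ, Continuous h ∧ (∃ C, ∀ x, |h x| ≤ C) ∧ ∀ x, g x = lp x + h x

/-- admissible bump functions `θ` -/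
structure AdmT (θ : ℝ → ℝ) : Prop where
  cont : Continuous θ
  nonneg : ∀ x, 0 ≤ θ x
  posdef : PosDef θ
  integrable : Integrable θ
  int_one : ∫ x, θ x = 1
  decay : ∀ k : ℕ, ∃ C, ∀ x, |x| ^ k * θ x ≤ C

/-- `(θ_ε ⋆ g)(x)`, `θ_ε(y) = θ(y/ε)/ε` -/
def reg (θ g : ℝ → ℝ) (ε x : ℝ) : ℝ := ∫ y, θ (y / ε) / ε * g (x - y)

/-- `ω` is (a jointly measurable version of) the Gaussian process on `ℝ` with covariance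
`μ G(x-y)` and mean `-Var/2` -/
structure Field (G : ℝ → ℝ) (μ : ℝ) {Ω : Type} [MeasurableSpace Ω]
    (P : Measure Ω) (ω : ℝ → Ω → ℝ) : Prop where
  meas : Measurable (fun p : ℝ × Ω => ω p.1 p.2)
  gauss : IsGaussianProcess ω P
  mean : ∀ x, ∫ o, ω x o ∂P = -(Var[ω x; P]) / 2
  cov : ∀ x y, cov[ω x, ω y; P] = μ * G (x - y)

/-- `∫_D φ(u) e^{ω(u)} du`, `D` the ball with centre `a` and radius `r` -/
def mass {Ω : Type} (φ : ℝ → ℝ) (a r : ℝ) (ω : ℝ → Ω → ℝ) (o : Ω) : ℝ :=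
  ∫ u in Metric.ball a r, φ u * Real.exp (ω u o)

/-- `τ` is the law of the total mass: the limit in law of the masses of the regularised fields -/
def IsTotalMass (g φ : ℝ → ℝ) (a r μ : ℝ) (τ : Measure ℝ) : Prop :=
  IsProbabilityMeasure τ ∧ ∃ θ : ℝ → ℝ, AdmT θ ∧
  ∃ (Ω : ℝ → Type) (_ : ∀ ε, MeasurableSpace (Ω ε)) (P : ∀ ε, Measure (Ω ε))
    (ω : ∀ ε, ℝ → Ω ε → ℝ),
    (∀ ε, 0 < ε → IsProbabilityMeasure (P ε) ∧ Field (reg θ g ε) μ (P ε) (ω ε)) ∧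
    ∀ f : ℝ →ᵇ ℝ, Tendsto (fun ε => ∫ o, f (mass φ a r (ω ε) o) ∂(P ε)) (𝓝[>] 0)
      (𝓝 (∫ t, f t ∂τ))

/-- infinitely divisible laws: for every `n ≥ 1` the law of the sum of `n` independent variables of
one law `ρ` -/
def InfDiv (ν : Measure ℝ) : Prop := ∀ n : ℕ, 1 ≤ n → ∃ ρ : Measure ℝ, IsProbabilityMeasure ρ ∧
  (Measure.pi (fun _ : Fin n => ρ)).map (fun y => ∑ i, y i) = ν

/-! ### The pieces -/

/-- `(-π, π)` -/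
def D : Set ℝ := Ioo (-Real.pi) Real.pi

/-- `∫_{-π}^{π} e^{κ cos x} dx` -/
def I (κ : ℝ) : ℝ := ∫ x in Ioo (-Real.pi) Real.pi, Real.exp (κ * Real.cos x)

/-- the triangle function -/
def tri (t x : ℝ) : ℝ := max (1 - |x| / t) 0

/-- `e^{F(x-y)}` in `[0,∞]` -/
def ee (F : ℝ → ℝ) (x y : ℝ) : ℝ≥0∞ := ENNReal.ofReal (Real.exp (F (x - y)))

/-- CRI: a necessary condition for infinite divisibility -/
def St_CRI : Prop := ∀ ν : Measure ℝ, IsProbabilityMeasure ν → InfDiv ν →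
  Integrable (fun y => Real.exp (4 * y)) ν →
  (∫ y, Real.exp (3 * y) ∂ν) ^ 4 * (∫ y, Real.exp y ∂ν) ^ 4 ≤
    (∫ y, Real.exp (4 * y) ∂ν) * (∫ y, Real.exp (2 * y) ∂ν) ^ 6

/-- MGF: exponential moments of the field -/
def St_MGF : Prop := ∀ (G : ℝ → ℝ) (μ : ℝ) (Ω : Type) [MeasurableSpace Ω] (P : Measure Ω)
  [IsProbabilityMeasure P] (ω : ℝ → Ω → ℝ), (∀ x, G (-x) = G x) → Field G μ P ω →
  ∀ (n : ℕ) (x : Fin n → ℝ),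
  ∫⁻ o, ENNReal.ofReal (Real.exp (∑ i, ω (x i) o)) ∂P =
    ENNReal.ofReal (Real.exp (∑ i, ∑ j ∈ Finset.univ.filter (fun j => i < j), μ * G (x i - x j)))

/-- TON: moments of the mass, in `[0,∞]` -/
def St_TON : Prop := ∀ (G : ℝ → ℝ) (μ : ℝ) (Ω : Type) [MeasurableSpace Ω] (P : Measure Ω)
  [IsProbabilityMeasure P] (ω : ℝ → Ω → ℝ), (∀ x, G (-x) = G x) → Measurable G →
  Field G μ P ω →
  ∫⁻ o, (∫⁻ u in D, ENNReal.ofReal (Real.exp (ω u o))) ∂P = ENNReal.ofReal (2 * Real.pi) ∧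
  ∫⁻ o, (∫⁻ u in D, ENNReal.ofReal (Real.exp (ω u o))) ^ 2 ∂P =
    (∫⁻ x in D, ∫⁻ y in D, ee (fun t => μ * G t) x y) ∧
  ∫⁻ o, (∫⁻ u in D, ENNReal.ofReal (Real.exp (ω u o))) ^ 3 ∂P =
    (∫⁻ x in D, ∫⁻ y in D, ∫⁻ z in D, ee (fun t => μ * G t) x y * ee (fun t => μ * G t) x z *
      ee (fun t => μ * G t) y z) ∧
  ∫⁻ o, (∫⁻ u in D, ENNReal.ofReal (Real.exp (ω u o))) ^ 4 ∂P =
    (∫⁻ x in D, ∫⁻ y in D, ∫⁻ z in D, ∫⁻ w in D, ee (fun t => μ * G t) x y *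
      ee (fun t => μ * G t) x z * ee (fun t => μ * G t) x w * ee (fun t => μ * G t) y z *
      ee (fun t => μ * G t) y w * ee (fun t => μ * G t) z w)

/-- MAS: the mass and its integral in `[0,∞]` -/
def St_MAS : Prop := ∀ (Ω : Type) [MeasurableSpace Ω] (P : Measure Ω)
  [IsProbabilityMeasure P] (ω : ℝ → Ω → ℝ), Measurable (fun p : ℝ × Ω => ω p.1 p.2) →
  ∫⁻ o, (∫⁻ u in D, ENNReal.ofReal (Real.exp (ω u o))) ∂P = ENNReal.ofReal (2 * Real.pi) →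
  AEMeasurable (mass (fun _ => 1) 0 Real.pi ω) P ∧ (∀ o, 0 ≤ mass (fun _ => 1) 0 Real.pi ω o) ∧
  ∀ᵐ o ∂P, ENNReal.ofReal (mass (fun _ => 1) 0 Real.pi ω o) =
    ∫⁻ u in D, ENNReal.ofReal (Real.exp (ω u o))

/-- TRI: the triangle function is positive definite, with a bound -/
def St_TRI : Prop := ∀ f : ℝ → ℝ, Continuous f → HasCompactSupport f →
  (∀ t : ℝ, 0 < t → 0 ≤ ∫ x, ∫ y, tri t (x - y) * f x * f y) ∧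
  ∃ C : ℝ, ∀ t : ℝ, 0 < t → t ≤ 1 → ∫ x, ∫ y, |tri t (x - y) * f x * f y| ≤ C * t

/-- MIX: `log⁺ (1/|x|)` is a mixture of triangle functions -/
def St_MIX : Prop := ∀ x : ℝ, x ≠ 0 →
  IntegrableOn (fun t => tri t x / t) (Ioc 0 1) ∧
  lp x = tri 1 x + ∫ t in Ioc (0 : ℝ) 1, tri t x / t

/-- PDL: `log⁺ (1/|x|)` is positive definite -/
def St_PDL : Prop := PosDef lp

/-- PDS: the function `g` of the counterexample is admissible -/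
def St_PDS : Prop := ∀ K : ℝ, 0 ≤ K → AdmG (fun x => lp x + K * Real.cos x)

/-- REG: the regularised `g` -/
def St_REG : Prop := ∀ θ : ℝ → ℝ, AdmT θ → ∀ K : ℝ, ∃ c : ℝ → ℝ, (∀ ε, |c ε| ≤ 1) ∧
  Tendsto c (𝓝[>] 0) (𝓝 1) ∧ ∀ ε : ℝ, 0 < ε →
  (∀ x, reg θ (fun x => lp x + K * Real.cos x) ε x = reg θ lp ε x + K * c ε * Real.cos x) ∧
  (∀ x, 0 ≤ reg θ lp ε x) ∧ (∀ x, reg θ lp ε (-x) = reg θ lp ε x) ∧ Measurable (reg θ lp ε)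

/-- JEN: exponential integrals of the regularised logarithm -/
def St_JEN : Prop := ∀ θ : ℝ → ℝ, AdmT θ → ∀ ε s : ℝ, 0 < ε → 0 < s → s < 1 →
  ∫⁻ x, ENNReal.ofReal (Real.exp (s * reg θ lp ε x) - 1) ≤ ENNReal.ofReal (2 * s / (1 - s))

/-- PER: the integral over one period -/
def St_PER : Prop := ∀ c κ : ℝ, |c| ≤ κ → ∀ x : ℝ,
  ∫⁻ y in D, ee (fun t => c * Real.cos t) x y ≤ ENNReal.ofReal (I κ)

/-- UP2: upper bound, two points -/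
def St_UP2 : Prop := ∀ (l : ℝ → ℝ) (c κ η : ℝ), Measurable l → (∀ x, 0 ≤ l x) →
  (∀ x, l (-x) = l x) → 0 ≤ η → |c| ≤ κ →
  ∫⁻ x, ENNReal.ofReal (Real.exp (l x) - 1) ≤ ENNReal.ofReal η →
  (∫⁻ x in D, ∫⁻ y in D, ee (fun t => l t + c * Real.cos t) x y) ≤
    ENNReal.ofReal (2 * Real.pi * I κ + 2 * Real.pi * Real.exp κ * η)

/-- UP4: upper bound, four points -/
def St_UP4 : Prop := ∀ (l : ℝ → ℝ) (c κ η : ℝ), Measurable l → (∀ x, 0 ≤ l x) →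
  (∀ x, l (-x) = l x) → 0 ≤ η → |c| ≤ κ →
  ∫⁻ x, ENNReal.ofReal (Real.exp (6 * l x) - 1) ≤ ENNReal.ofReal η →
  (∫⁻ x in D, ∫⁻ y in D, ∫⁻ z in D, ∫⁻ w in D, ee (fun t => l t + c * Real.cos t) x y *
      ee (fun t => l t + c * Real.cos t) x z * ee (fun t => l t + c * Real.cos t) x w *
      ee (fun t => l t + c * Real.cos t) y z * ee (fun t => l t + c * Real.cos t) y w *
      ee (fun t => l t + c * Real.cos t) z w) ≤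
    ENNReal.ofReal (Real.exp (3 * κ) * I κ ^ 2 *
      (2 * Real.pi * I κ + 2 * Real.pi * Real.exp κ * η))

/-- LO: lower bound of the third moment -/
def St_LO : Prop := ∀ (l : ℝ → ℝ) (c κ : ℝ), Measurable l → (∀ x, 0 ≤ l x) → 1 ≤ κ →
  0 ≤ c → c ≤ κ →
  ENNReal.ofReal (4 * Real.pi * Real.exp (3 * c - 3) / κ) ≤
    (∫⁻ x in D, ∫⁻ y in D, ∫⁻ z in D, ee (fun t => l t + c * Real.cos t) x y *
      ee (fun t => l t + c * Real.cos t) x z * ee (fun t => l t + c * Real.cos t) y z)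

/-- IK: the Bessel integral -/
def St_IK : Prop := ∀ κ : ℝ, 0 < κ → 0 ≤ I κ ∧ I κ ≤ 4 * Real.exp κ / Real.sqrt κ

/-- NUM: the choice of `κ` -/
def St_NUM : Prop := ∃ κ : ℝ, 1 ≤ κ ∧
  ∀ Iκ : ℝ, 0 ≤ Iκ → Iκ ≤ 4 * Real.exp κ / Real.sqrt κ → ∀ η : ℝ, 0 ≤ η → η ≤ 1 / Real.sqrt κ →
  (Real.exp (3 * κ) * Iκ ^ 2 * (2 * Real.pi * Iκ + 2 * Real.pi * Real.exp κ * η) + 1) *
    (2 * Real.pi * Iκ + 2 * Real.pi * Real.exp κ * η + 1) ^ 6 <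
  (4 * Real.pi * Real.exp (3 * κ - 4) / κ) ^ 4 * (2 * Real.pi) ^ 4

/-- TRA1: passage to the limit -/
def St_TRA1 : Prop := ∀ (τ : Measure ℝ), IsProbabilityMeasure τ → ∀ (Ω : ℝ → Type)
  (_mΩ : ∀ ε, MeasurableSpace (Ω ε)) (P : ∀ ε, Measure (Ω ε)) (S : ∀ ε, Ω ε → ℝ),
  (∀ ε, 0 < ε → IsProbabilityMeasure (P ε)) → (∀ ε, 0 < ε → AEMeasurable (S ε) (P ε)) →
  (∀ ε, 0 < ε → ∀ o, 0 ≤ S ε o) →
  (∀ f : ℝ →ᵇ ℝ, Tendsto (fun ε => ∫ o, f (S ε o) ∂(P ε)) (𝓝[>] 0) (𝓝 (∫ t, f t ∂τ))) →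
  ∀ b1 b2 b3 b4 : ℝ, 0 ≤ b1 → 0 ≤ b2 → 0 ≤ b3 → 0 ≤ b4 →
  (∀ᶠ ε in 𝓝[>] (0 : ℝ), ENNReal.ofReal b1 ≤ ∫⁻ o, ENNReal.ofReal (S ε o) ∂(P ε)) →
  (∀ᶠ ε in 𝓝[>] (0 : ℝ), ∫⁻ o, ENNReal.ofReal (S ε o) ^ 2 ∂(P ε) ≤ ENNReal.ofReal b2) →
  (∀ᶠ ε in 𝓝[>] (0 : ℝ), ENNReal.ofReal b3 ≤ ∫⁻ o, ENNReal.ofReal (S ε o) ^ 3 ∂(P ε)) →
  (∀ᶠ ε in 𝓝[>] (0 : ℝ), ∫⁻ o, ENNReal.ofReal (S ε o) ^ 4 ∂(P ε) ≤ ENNReal.ofReal b4) →
  ENNReal.ofReal b1 ≤ ∫⁻ t, ENNReal.ofReal |t| ∂τ ∧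
  ∫⁻ t, ENNReal.ofReal |t| ^ 2 ∂τ ≤ ENNReal.ofReal b2 ∧
  ENNReal.ofReal b3 ≤ ∫⁻ t, ENNReal.ofReal |t| ^ 3 ∂τ ∧
  ∫⁻ t, ENNReal.ofReal |t| ^ 4 ∂τ ≤ ENNReal.ofReal b4

/-- TRA2: from the total mass to its logarithm -/
def St_TRA2 : Prop := ∀ (τ : Measure ℝ), IsProbabilityMeasure τ →
  ∀ b1 b2 b3 b4 : ℝ, 0 ≤ b1 → 0 ≤ b2 → 0 ≤ b3 → 0 ≤ b4 →
  ENNReal.ofReal b1 ≤ ∫⁻ t, ENNReal.ofReal |t| ∂τ →
  ∫⁻ t, ENNReal.ofReal |t| ^ 2 ∂τ ≤ ENNReal.ofReal b2 →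
  ENNReal.ofReal b3 ≤ ∫⁻ t, ENNReal.ofReal |t| ^ 3 ∂τ →
  ∫⁻ t, ENNReal.ofReal |t| ^ 4 ∂τ ≤ ENNReal.ofReal b4 →
  Integrable (fun y => Real.exp (4 * y)) (τ.map Real.log) ∧
  ∫ y, Real.exp (4 * y) ∂(τ.map Real.log) ≤ b4 + 1 ∧
  ∫ y, Real.exp (2 * y) ∂(τ.map Real.log) ≤ b2 + 1 ∧
  b3 ≤ ∫ y, Real.exp (3 * y) ∂(τ.map Real.log) ∧
  b1 ≤ ∫ y, Real.exp y ∂(τ.map Real.log)

/-- the answer to Q1 -/
def St_FIN : Prop := ∃ (g φ : ℝ → ℝ) (a r μ : ℝ), AdmG g ∧ 0 < r ∧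
  Continuous φ ∧ (∃ C, ∀ x, φ x ≤ C) ∧ (∀ x, 0 < φ x) ∧ 0 < μ ∧ μ < 2 ∧
  ∀ τ : Measure ℝ, IsTotalMass g φ a r μ τ → ¬ InfDiv (τ.map Real.log)

end

end Pool.Agent.L5helper98.ID
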